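import Pool.Agent.OneE.Uniq

/-!
Problem MP_b9fb85_pr: the infection tree of an exploration sequence and its ends.
-/

set_option autoImplicit false

namespace OneE

open MeasureTheory ConeD ConeD.TRANSAux

variable {d : ℕ}

/-- the sites reached by the sequence of edges `s` -/
def Reached (s : ℕ → Edge d) : Set (V d) := {v | ∃ n, v ∈ vs (lst s n)}

/-- the site `y` is infected from the site `x`: some edge `s n` has the ends `x`, `y`, and of these
two sites only `x` is reached by the first `n` edges -/
def Infects (s : ℕ → Edge d) (x y : V d) : Prop :=
  ∃ n, x ∈ ends (s n) ∧ y ∈ ends (s n) ∧ x ∈ vs (lst s n) ∧ y ∉ vs (lst s n)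

/-- the descendants of a site in the infection tree -/
def Desc (s : ℕ → Edge d) (z : V d) : Set (V d) := {v | Relation.ReflTransGen (Infects s) z v}

/-- the infection tree has one end: for every finite set `F` of sites there is a site `z` outside
`F` such that all but finitely many sites reached are descendants of `z`, with an ancestral line
from `z` avoiding `F` -/
def OneEnd (s : ℕ → Edge d) : Prop :=
  ∀ F : Finset (V d), ∃ z ∉ F,
    (Reached s \ {v | Relation.ReflTransGen (fun x y => Infects s x y ∧ y ∉ F) z v}).Finite

end OneE
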