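import Pool.Agent.OneE.Defs

/-!
The deterministic part: if every edge is essential or negligible, the infection tree has one end.
-/

set_option autoImplicit false

namespace OneE

open ConeD ConeD.TRANSAux

variable {d : ℕ}

theorem vs_mono (s : ℕ → Edge d) {m n : ℕ} (h : m ≤ n) : vs (lst s m) ⊆ vs (lst s n) := by
  induction n, h using Nat.le_induction with
  | base => exact subset_rfl
  | succ n _ ih => exact ih.trans Finset.subset_union_left

theorem ends_subset (s : ℕ → Edge d) (n : ℕ) : ends (s n) ⊆ vs (lst s (n + 1)) :=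
  Finset.subset_union_right

theorem zero_mem_vs (s : ℕ → Edge d) (n : ℕ) : (0 : V d) ∈ vs (lst s n) := expl_zero_mem _

/-- a site is new at one time only -/
theorem new_unique {s : ℕ → Edge d} {y : V d} {m n : ℕ} (h1 : y ∈ ends (s m))
    (h2 : y ∉ vs (lst s m)) (h3 : y ∈ ends (s n)) (h4 : y ∉ vs (lst s n)) : m = n := by
  rcases lt_trichotomy m n with h | h | h
  · exact absurd (vs_mono s (Nat.succ_le_of_lt h) (ends_subset s m h1)) h4
  · exact h
  · exact absurd (vs_mono s (Nat.succ_le_of_lt h) (ends_subset s n h3)) h2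

/-- an edge has only two ends -/
theorem ends_two {f : Edge d} {x x' y : V d} (hx : x ∈ ends f) (hx' : x' ∈ ends f) (hy : y ∈ ends f)
    (h : x ≠ y) (h' : x' ≠ y) : x = x' := by
  rw [mem_ends] at hx hx' hy
  rcases hx with rfl | rfl <;> rcases hx' with rfl | rfl <;> rcases hy with rfl | rfl <;>
    first
    | rfl
    | exact absurd rfl h
    | exact absurd rfl h'

theorem infects_unique {s : ℕ → Edge d} {x x' y : V d} (h : Infects s x y) (h' : Infects s x' y) :
    x = x' := by
  obtain ⟨n, h1, h2, h3, h4⟩ := h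
  obtain ⟨m, k1, k2, k3, k4⟩ := h'
  have hmn : m = n := new_unique k2 k4 h2 h4
  subst hmn
  exact ends_two h1 k1 h2 (fun h => h4 (h ▸ h3)) (fun h => k4 (h ▸ k3))

theorem infects_mem {s : ℕ → Edge d} {x y : V d} (h : Infects s x y) {n : ℕ}
    (hy : y ∈ vs (lst s n)) : x ∈ vs (lst s n) := by
  obtain ⟨m, h1, h2, h3, h4⟩ := h
  rcases le_total m n with h | h
  · exact vs_mono s h h3
  · exact absurd (vs_mono s h hy) h4

theorem desc_mem {s : ℕ → Edge d} {z v : V d} (h : Relation.ReflTransGen (Infects s) z v) {n : ℕ}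
    (hv : v ∈ vs (lst s n)) : z ∈ vs (lst s n) := by
  induction h with
  | refl => exact hv
  | tail _ h2 ih => exact ih (infects_mem h2 hv)

theorem infects_reached {s : ℕ → Edge d} {x y : V d} (h : Infects s x y) : y ∈ Reached s := by
  obtain ⟨n, _, h2, _, _⟩ := h
  exact ⟨n + 1, ends_subset s n h2⟩

theorem desc_reached {s : ℕ → Edge d} {z v : V d} (hz : z ∈ Reached s)
    (h : Relation.ReflTransGen (Infects s) z v) : v ∈ Reached s := by
  rcases Relation.ReflTransGen.cases_tail h with h | ⟨u, _, h⟩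
  · rw [h]; exact hz
  · exact infects_reached h

section
variable {τ : Edge d → ℝ} {s : ℕ → Edge d}

/-- the edges of the exploration are different -/
theorem seq_inj (hG : ∀ n, G τ (lst s n)) : Function.Injective s := by
  have key : ∀ m n, m < n → s m ≠ s n := by
    intro m n hmn h
    have h1 : s n ∈ bd (lst s n) := (hG (n + 1)).2.1
    refine (mem_bd.1 h1).1 ?_
    rw [mem_lst]
    exact ⟨m, hmn, h.symm⟩
  intro m n h
  rcases lt_trichotomy m n with h1 | h1 | h1
  · exact absurd h (key m n h1)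
  · exact h1
  · exact absurd h.symm (key n m h1)

/-- the other end of the edge by which a new site is reached -/
theorem exists_parent (hG : ∀ n, G τ (lst s n)) {n : ℕ} {v : V d} (h1 : v ∈ vs (lst s (n + 1)))
    (h2 : v ∉ vs (lst s n)) :
    v ∈ ends (s n) ∧ ∃ u, u ∈ ends (s n) ∧ u ∈ vs (lst s n) ∧
      ∃ t : Step d, u + vec t = v ∧ edg u t = s n := by
  have hv : v ∈ ends (s n) := (Finset.mem_union.1 h1).resolve_left h2
  have hs := (mem_bd.1 (hG (n + 1)).2.1).2
  refine ⟨hv, ?_⟩
  rcases (mem_ends v (s n)).1 hv with h | h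
  · refine ⟨(s n).1 + ev (s n).2, (mem_ends _ _).2 (Or.inr rfl), hs.resolve_left (by rw [← h]; exact h2),
      ((s n).2, false), ?_, ?_⟩
    · simp [vec, h]
    · simp [edg]
  · refine ⟨(s n).1, (mem_ends _ _).2 (Or.inl rfl), hs.resolve_right (by rw [← h]; exact h2),
      ((s n).2, true), ?_, ?_⟩
    · simp [vec, h]
    · simp [edg]

/-- every site reached is a descendant of the origin -/
theorem desc_zero (hG : ∀ n, G τ (lst s n)) :
    ∀ n, ∀ v ∈ vs (lst s n), Relation.ReflTransGen (Infects s) 0 v := by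
  intro n
  induction n with
  | zero =>
    intro v hv
    have : v = 0 := by simpa [vs, lst] using hv
    rw [this]
  | succ n ih =>
    intro v hv
    by_cases hv' : v ∈ vs (lst s n)
    · exact ih v hv'
    · obtain ⟨h1, u, hu1, hu2, _⟩ := exists_parent hG hv hv'
      exact (ih u hu2).tail ⟨n, hu1, h1, hu2, hv'⟩

theorem edges_append (x : V d) (l l' : List (Step d)) :
    edges x (l ++ l') = edges x l ++ edges (endp x l) l' := by
  induction l generalizing x with
  | nil => rfl
  | cons a l ih =>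
    show edg x a :: edges (x + vec a) (l ++ l') = _
    rw [ih]
    rfl

/-- the ancestral walk -/
theorem exists_walk (hG : ∀ n, G τ (lst s n)) :
    ∀ n, ∀ v ∈ vs (lst s n), ∃ l : List (Step d), endp 0 l = v ∧ wt τ 0 l = th τ (lst s n) v ∧
      ∀ m z, z ∈ ends (s m) → z ∉ vs (lst s m) →
        (s m ∈ edges 0 l ↔ Relation.ReflTransGen (Infects s) z v) := by
  intro n
  induction n with
  | zero =>
    intro v hv
    have h0 : v = 0 := by simpa [vs, lst] using hv
    subst h0
    refine ⟨[], rfl, rfl, fun m z _ hz2 => ⟨fun h => absurd h (by simp [edges]), fun h => ?_⟩⟩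
    exact absurd (vs_mono s (Nat.zero_le m) (desc_mem h (zero_mem_vs s 0))) hz2
  | succ n ih =>
    intro v hv
    by_cases hv' : v ∈ vs (lst s n)
    · obtain ⟨l, h1, h2, h3⟩ := ih v hv'
      refine ⟨l, h1, ?_, h3⟩
      rw [h2]
      exact (expl_th_cons_of_mem τ (s n) hv').symm
    · obtain ⟨h1, u, hu1, hu2, t, ht1, ht2⟩ := exists_parent hG hv hv'
      obtain ⟨l, k1, k2, k3⟩ := ih u hu2
      have hinf : Infects s u v := ⟨n, hu1, h1, hu2, hv'⟩
      refine ⟨l ++ [t], ?_, ?_, ?_⟩
      · rw [endp_append, k1]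
        exact ht1
      · rw [wt_append, k1, k2, wt_cons, wt_nil, ht2, add_zero]
        have h5 : ((s n).1 = u ∧ (s n).1 + ev (s n).2 = v) ∨
            ((s n).1 = v ∧ (s n).1 + ev (s n).2 = u) := by
          have huv : u ≠ v := fun h => hv' (h ▸ hu2)
          rcases (mem_ends _ _).1 hu1 with h | h <;> rcases (mem_ends _ _).1 h1 with h' | h'
          · exact absurd (h.trans h'.symm) huv
          · exact Or.inl ⟨h.symm, h'.symm⟩
          · exact Or.inr ⟨h'.symm, h.symm⟩
          · exact absurd (h.trans h'.symm) huv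
        have h6 := expl_th_cons_of_notMem τ (s n) hv'
        have h7 := expl_tm_cons τ (s n) (lst s n)
        have h8 := expl_ac_one (τ := τ) h5 hu2 hv'
        show th τ (lst s n) u + τ (s n) = th τ (s n :: lst s n) v
        rw [h6, h7, h8]
      · intro m z hz1 hz2
        rw [edges_append, k1, List.mem_append]
        have h5 : edges u [t] = [s n] := by
          show [edg u t] = [s n]
          rw [ht2]
        rw [h5, List.mem_singleton, k3 m z hz1 hz2]
        constructor
        · rintro (h | h)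
          · exact h.tail hinf
          · have hmn : m = n := seq_inj hG h
            subst hmn
            have : z = v := ends_two hz1 h1 hu1 (fun h => hz2 (h ▸ hu2)) (fun h => hv' (h ▸ hu2))
            rw [this]
        · intro h
          rcases Relation.ReflTransGen.cases_tail h with h | ⟨w, h6, h7⟩
          · right
            subst h
            rw [new_unique hz1 hz2 h1 hv']
          · left
            rw [← infects_unique h7 hinf]
            exact h6

/-- the arrival times are smaller than the explosion time -/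
theorem th_lt (i0 : Fin d) (hτ : ∀ e, 0 < τ e) (hS : Explodes τ) {σ : List (Edge d)}
    (hG : G τ σ) : ∀ v ∈ vs σ, th τ σ v < S τ 0 := by
  intro v hv
  obtain ⟨hD, hall⟩ := (G_iff hτ σ).mp hG
  obtain ⟨f0, hf0, hmin⟩ := Finset.exists_min_image (bd σ) (fun f => ac τ σ f + τ f)
    (bd_nonempty i0 σ)
  have h1 : ac τ σ f0 + τ f0 ≤ S τ 0 := by
    refine le_S_of_finite hS (F := ((vs σ : Finset (V d)) : Set (V d))) (Finset.finite_toSet _)
      (fun l hl => ?_)
    have := expl_walk_out hτ hG hmin l 0 (expl_zero_mem σ) (by simpa using hl)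
    rwa [expl_th_zero, zero_add] at this
  exact (((expl_th_bounds hD).2 v hv).2.trans_lt (hall f0 hf0)).trans_le h1

/-- behind a site of the tree there are finitely many or all but finitely many sites -/
theorem desc_or (i0 : Fin d) (hτ : ∀ e, 0 < τ e) (hS : Explodes τ) (hG : ∀ n, G τ (lst s n))
    (hva : ∀ e, (Via τ e).Finite ∨ (Avoid τ e).Finite) {m : ℕ} {z : V d} (hz1 : z ∈ ends (s m))
    (hz2 : z ∉ vs (lst s m)) : (Desc s z).Finite ∨ (Reached s \ Desc s z).Finite := by
  have hz : z ∈ Reached s := ⟨m + 1, ends_subset s m hz1⟩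
  refine (hva (s m)).imp (fun h => h.subset ?_) (fun h => h.subset ?_)
  · intro v hv
    obtain ⟨n, hn⟩ := desc_reached hz hv
    obtain ⟨l, h1, h2, h3⟩ := exists_walk hG n v hn
    exact ⟨l, h1, h2 ▸ th_lt i0 hτ hS (hG n) v hn, (h3 m z hz1 hz2).2 hv⟩
  · rintro v ⟨⟨n, hn⟩, hv⟩
    obtain ⟨l, h1, h2, h3⟩ := exists_walk hG n v hn
    exact ⟨l, h1, h2 ▸ th_lt i0 hτ hS (hG n) v hn, fun h => hv ((h3 m z hz1 hz2).1 h)⟩

/-- infinitely many sites are reached -/
theorem reached_infinite (hG : ∀ n, G τ (lst s n)) : (Reached s).Infinite := by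
  intro hfin
  have h1 : {f : Edge d | f.1 ∈ Reached s}.Finite := by
    have : {f : Edge d | f.1 ∈ Reached s} ⊆ (Reached s) ×ˢ (Set.univ : Set (Fin d)) := by
      intro f hf
      exact ⟨hf, trivial⟩
    exact (hfin.prod Set.finite_univ).subset this
  refine (Set.infinite_of_injective_forall_mem (seq_inj hG) (s := {f : Edge d | f.1 ∈ Reached s})
    fun n => ?_) h1
  exact ⟨n + 1, ends_subset s n ((mem_ends _ _).2 (Or.inl rfl))⟩

/-- the sites outside a finite beginning are descendants of the children of its sites -/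
theorem exists_exit (hG : ∀ n, G τ (lst s n)) (N : ℕ) {v : V d} (hv : v ∈ Reached s)
    (hv' : v ∉ vs (lst s N)) :
    ∃ x ∈ vs (lst s N), ∃ z ∉ vs (lst s N), Infects s x z ∧ Relation.ReflTransGen (Infects s) z v := by
  obtain ⟨n, hn⟩ := hv
  have h := desc_zero hG n v hn
  clear hn
  induction h with
  | refl => exact absurd (zero_mem_vs s N) hv'
  | @tail u w _ h2 ih =>
    by_cases hu : u ∈ vs (lst s N)
    · exact ⟨u, hu, w, hv', h2, Relation.ReflTransGen.refl⟩
    · obtain ⟨x, hx, z, hz, h3, h4⟩ := ih hu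
      exact ⟨x, hx, z, hz, h3, h4.tail h2⟩

theorem infects_adj {x z : V d} (h : Infects s x z) : ∃ t : Step d, x + vec t = z := by
  obtain ⟨n, h1, h2, h3, h4⟩ := h
  rw [mem_ends] at h1 h2
  rcases h1 with h1 | h1 <;> rcases h2 with h2 | h2
  · exact absurd (h2.trans h1.symm ▸ h3) h4
  · exact ⟨((s n).2, true), by rw [h1, h2]; simp [vec]⟩
  · exact ⟨((s n).2, false), by rw [h1, h2]; simp [vec]⟩
  · exact absurd (h2.trans h1.symm ▸ h3) h4

/-- there is a site with almost all sites behind it outside every finite beginning -/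
theorem exists_big (i0 : Fin d) (hτ : ∀ e, 0 < τ e) (hS : Explodes τ) (hG : ∀ n, G τ (lst s n))
    (hva : ∀ e, (Via τ e).Finite ∨ (Avoid τ e).Finite) (N : ℕ) :
    ∃ z ∈ Reached s, z ∉ vs (lst s N) ∧ (Reached s \ Desc s z).Finite := by
  set Z : Set (V d) := {z | z ∉ vs (lst s N) ∧ ∃ x ∈ vs (lst s N), Infects s x z} with hZ
  have hZfin : Z.Finite := by
    have h1 : Z ⊆ (fun q : V d × Step d => q.1 + vec q.2) ''
        (((vs (lst s N) : Finset (V d)) : Set (V d)) ×ˢ (Set.univ : Set (Step d))) := by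
      rintro z ⟨_, x, hx, h⟩
      obtain ⟨t, ht⟩ := infects_adj h
      exact ⟨(x, t), ⟨hx, trivial⟩, ht⟩
    exact (((Finset.finite_toSet _).prod Set.finite_univ).image _).subset h1
  have hcov : Reached s \ ((vs (lst s N) : Finset (V d)) : Set (V d)) ⊆ ⋃ z ∈ Z, Desc s z := by
    rintro v ⟨hv, hv'⟩
    obtain ⟨x, hx, z, hz, h3, h4⟩ := exists_exit hG N hv hv'
    exact Set.mem_biUnion (⟨hz, x, hx, h3⟩ : z ∈ Z) h4
  have hinf : (Reached s \ ((vs (lst s N) : Finset (V d)) : Set (V d))).Infinite :=
    (reached_infinite hG).sdiff (Finset.finite_toSet _)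
  obtain ⟨z, hz, hzi⟩ : ∃ z ∈ Z, (Desc s z).Infinite := by
    by_contra hcon
    push Not at hcon
    exact hinf ((hZfin.biUnion fun z hz => hcon z hz).subset hcov)
  obtain ⟨hz1, x, hx, n, h1, h2, h3, h4⟩ := hz
  refine ⟨z, ⟨n + 1, ends_subset s n h2⟩, hz1, ?_⟩
  exact (desc_or i0 hτ hS hG hva h2 h4).resolve_left hzi

/-- the infection tree has one end -/
theorem one_end (i0 : Fin d) (hτ : ∀ e, 0 < τ e) (hS : Explodes τ) (hG : ∀ n, G τ (lst s n))
    (hva : ∀ e, (Via τ e).Finite ∨ (Avoid τ e).Finite) : OneEnd s := by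
  classical
  intro F
  obtain ⟨N, hN⟩ : ∃ N, ∀ v ∈ F, v ∈ Reached s → v ∈ vs (lst s N) := by
    induction F using Finset.induction_on with
    | empty => exact ⟨0, fun v hv => absurd hv (Finset.notMem_empty v)⟩
    | insert a F _ ih =>
      obtain ⟨N, hN⟩ := ih
      by_cases ha : a ∈ Reached s
      · obtain ⟨M, hM⟩ := ha
        refine ⟨max N M, fun v hv hvr => ?_⟩
        rcases Finset.mem_insert.1 hv with h | h
        · rw [h]; exact vs_mono s (le_max_right _ _) hM
        · exact vs_mono s (le_max_left _ _) (hN v h hvr)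
      · refine ⟨N, fun v hv hvr => ?_⟩
        rcases Finset.mem_insert.1 hv with h | h
        · exact absurd (h ▸ hvr) ha
        · exact hN v h hvr
  obtain ⟨z, hz, hzN, hzf⟩ := exists_big i0 hτ hS hG hva N
  refine ⟨z, fun h => hzN (hN z h hz), hzf.subset ?_⟩
  rintro v ⟨hv, hv'⟩
  refine ⟨hv, fun hd => hv' ?_⟩
  have hd' : Relation.ReflTransGen (Infects s) z v := hd
  clear hd hv hv'
  show Relation.ReflTransGen (fun x y => Infects s x y ∧ y ∉ F) z v
  induction hd' with
  | refl => exact Relation.ReflTransGen.refl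
  | @tail u w h1 h2 ih =>
    refine ih.tail ⟨h2, fun h => hzN ?_⟩
    exact desc_mem (h1.tail h2) (hN w h (infects_reached h2))

end

end OneE
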