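import Pool.Agent.OneE.Defs

/-!
Explosion for every exponent larger than one, in every dimension: the first axis.
-/

set_option autoImplicit false

namespace OneE

open MeasureTheory ConeD

variable {d : ℕ}

/-- the straight walk along the axis `i0` -/
def axis (i0 : Fin d) (n : ℕ) : List (Step d) := List.replicate n (i0, true)

theorem axis_endp (i0 : Fin d) (x : V d) (n : ℕ) : endp x (axis i0 n) = x + n • ev i0 := by
  induction n generalizing x with
  | zero => simp [axis, endp]
  | succ n ih =>
    show endp (x + vec (i0, true)) (axis i0 n) = _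
    rw [ih, succ_nsmul']
    simp [vec, add_assoc]

theorem axis_wt (τ : Edge d → ℝ) (i0 : Fin d) (x : V d) (n : ℕ) :
    wt τ x (axis i0 n) = ∑ k ∈ Finset.range n, τ (x + k • ev i0, i0) := by
  induction n generalizing x with
  | zero => simp [axis, wt]
  | succ n ih =>
    show τ (edg x (i0, true)) + wt τ (x + vec (i0, true)) (axis i0 n) = _
    rw [ih, Finset.sum_range_succ']
    have h1 : ∀ k : ℕ, x + vec (i0, true) + k • ev i0 = x + (k + 1) • ev i0 := by
      intro k
      rw [succ_nsmul']
      simp [vec, add_assoc]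
    simp only [h1]
    simp [edg, add_comm]

/-- explosion for `α > 1` -/
theorem explodes_ae (i0 : Fin d) {α : ℝ} (hα : 1 < α) : ∀ᵐ E ∂(PE d), Explodes (tau α E) := by
  have hmid : ∀ k : ℕ, mid ((k • ev i0 : V d), i0) = |(k : ℝ) + 1 / 2| := by
    intro k
    unfold mid
    rw [Finset.sum_eq_single i0]
    · rw [Real.sqrt_sq_eq_abs]
      congr 1
      simp [ev]
    · intro j _ hj
      simp [ev, hj]
    · intro h
      exact absurd (Finset.mem_univ i0) h
  have hone : ∀ e : Edge d, ∫⁻ E, ENNReal.ofReal (E e) ∂(PE d) = 1 := by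
    intro e
    rw [(measurePreserving_eval e).lintegral_comp ENNReal.measurable_ofReal,
      ← ofReal_integral_eq_lintegral_ofReal ConeE.integrable_mE
        (ConeE.mE_ae_pos.mono fun x hx => le_of_lt hx), ConeE.integral_mE, ENNReal.ofReal_one]
  have hint : ∀ k : ℕ, ∫⁻ E, ENNReal.ofReal (tau α E ((k • ev i0 : V d), i0)) ∂(PE d) =
      ENNReal.ofReal (1 / |(k : ℝ) + 1 / 2| ^ α) := by
    intro k
    have h0 : 0 ≤ 1 / |(k : ℝ) + 1 / 2| ^ α := by positivity
    have h1 : ∀ E : Edge d → ℝ, ENNReal.ofReal (tau α E ((k • ev i0 : V d), i0)) =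
        ENNReal.ofReal (1 / |(k : ℝ) + 1 / 2| ^ α) * ENNReal.ofReal (E ((k • ev i0 : V d), i0)) := by
      intro E
      rw [← ENNReal.ofReal_mul h0, tau, hmid]
      congr 1
      ring
    simp only [h1]
    rw [lintegral_const_mul _ ((measurable_pi_apply _).ennreal_ofReal), hone, mul_one]
  have hsum : ∑' k : ℕ, ENNReal.ofReal (1 / |(k : ℝ) + 1 / 2| ^ α) ≠ ⊤ := by
    rw [← ENNReal.ofReal_tsum_of_nonneg (fun k => by positivity)
      ((Real.summable_one_div_nat_add_rpow (1 / 2) α).2 hα)]
    exact ENNReal.ofReal_ne_top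
  have hfin : ∀ᵐ E ∂(PE d), ∑' k : ℕ, ENNReal.ofReal (tau α E ((k • ev i0 : V d), i0)) < ⊤ := by
    refine ae_lt_top' (AEMeasurable.ennreal_tsum fun k => ?_) ?_
    · exact (((measurable_pi_apply _).div_const _).ennreal_ofReal).aemeasurable
    · rw [lintegral_tsum fun k => (((measurable_pi_apply _).div_const _).ennreal_ofReal).aemeasurable]
      simp only [hint]
      exact hsum
  filter_upwards [hfin, ae_pos] with E hE hpos
  have hτ : ∀ e, 0 ≤ tau α E e := tau_nonneg fun e => (hpos e).le
  refine explodes_of_one hτ (x := 0)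
    (t := (∑' k : ℕ, ENNReal.ofReal (tau α E ((k • ev i0 : V d), i0))).toReal) ?_
  refine Set.infinite_of_injective_forall_mem (f := fun n : ℕ => (n • ev i0 : V d)) ?_ fun n => ?_
  · intro m n h
    have h1 := congrFun h i0
    simp only [ev, Pi.smul_apply, Pi.single_eq_same, nsmul_eq_mul, mul_one] at h1
    exact_mod_cast h1
  · have h1 : endp 0 (axis i0 n) = n • ev i0 := by rw [axis_endp, zero_add]
    refine (T_le_wt hτ h1).trans ?_
    rw [axis_wt]
    simp only [zero_add]
    have h2 : ∑ k ∈ Finset.range n, tau α E ((k • ev i0 : V d), i0) =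
        (∑ k ∈ Finset.range n, ENNReal.ofReal (tau α E ((k • ev i0 : V d), i0))).toReal := by
      rw [ENNReal.toReal_sum fun k _ => ENNReal.ofReal_ne_top]
      exact Finset.sum_congr rfl fun k _ => (ENNReal.toReal_ofReal (hτ _)).symm
    rw [h2]
    exact ENNReal.toReal_mono hE.ne (ENNReal.sum_le_tsum _)

end OneE
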