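import Pool.Agent.OneE.Defs

/-!
The law of the infinite exploration sequence, and the transfer of almost sure properties to the
Markov chain of the problem.
-/

set_option autoImplicit false

open MeasureTheory Classical

namespace OneE

open ConeD ConeD.TRANSAux

variable {d : ℕ}

/-- the law of the beginnings, and the exploration goes on for ever -/
theorem law_prefix (i0 : Fin d) (α : ℝ) :
    ∀ (Ω : Type) [MeasurableSpace Ω] (P : Measure Ω), IsProbabilityMeasure P →
    ∀ e : ℕ → Ω → (Fin d → ℤ) × Fin d,
      (∀ (n : ℕ) (f : (Fin d → ℤ) × Fin d), MeasurableSet {ω | e n ω = f}) →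
      (∀ (n : ℕ) (s : ℕ → (Fin d → ℤ) × Fin d) (f : (Fin d → ℤ) × Fin d),
        P {ω | (∀ i < n, e i ω = s i) ∧ e n ω = f}
          = P {ω | ∀ i < n, e i ω = s i} *
            ENNReal.ofReal
              (if ((∀ i < n, f ≠ s i) ∧
                    (n = 0 → ((0 : Fin d → ℤ) = f.1 ∨ (0 : Fin d → ℤ) = f.1 + Pi.single f.2 1)) ∧
                    (0 < n → ∃ i < n, ∃ p : Fin d → ℤ,
                      (p = f.1 ∨ p = f.1 + Pi.single f.2 1) ∧
                      (p = (s i).1 ∨ p = (s i).1 + Pi.single (s i).2 1)))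
               then
                (Real.sqrt (∑ j : Fin d,
                    ((f.1 j : ℝ) + (if j = f.2 then (1 / 2 : ℝ) else 0)) ^ 2)) ^ α /
                (∑' g : (Fin d → ℤ) × Fin d,
                  if ((∀ i < n, g ≠ s i) ∧
                      (n = 0 → ((0 : Fin d → ℤ) = g.1 ∨ (0 : Fin d → ℤ) = g.1 + Pi.single g.2 1)) ∧
                      (0 < n → ∃ i < n, ∃ p : Fin d → ℤ,
                        (p = g.1 ∨ p = g.1 + Pi.single g.2 1) ∧
                        (p = (s i).1 ∨ p = (s i).1 + Pi.single (s i).2 1)))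
                  then
                    (Real.sqrt (∑ j : Fin d,
                      ((g.1 j : ℝ) + (if j = g.2 then (1 / 2 : ℝ) else 0)) ^ 2)) ^ α
                  else 0)
               else 0)) →
      (∀ (n : ℕ) (s : ℕ → (Edge d)),
        P {ω | ∀ i < n, e i ω = s i} = (PE d) {E | G (tau α E) (lst s n)}) ∧
      ∀ᵐ E ∂(PE d), ∀ n, ∃ σ : List (Edge d), σ.length = n ∧ G (tau α E) σ := by
  intro Ω _ P hP e hem hstep
  set w : Edge d → ℝ := fun f => mid f ^ α with hw
  have hwpos : ∀ f, 0 < w f := fun f => Real.rpow_pos_of_pos (mid_pos f) α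
  set τ : (Edge d → ℝ) → (Edge d) → ℝ := fun E f => E f / w f with hτ
  have hτα : ∀ E, τ E = tau α E := fun E => rfl
  -- law of the prefixes
  have hlaw : ∀ (n : ℕ) (s : ℕ → (Edge d)),
      P {ω | ∀ i < n, e i ω = s i} = (PE d) {E | G (τ E) (lst s n)} := by
    intro n s
    induction n with
    | zero =>
      have h1 : {ω : Ω | ∀ i < 0, e i ω = s i} = Set.univ := by ext; simp
      have h2 : {E : Edge d → ℝ | G (τ E) (lst s 0)} = Set.univ := by ext; simp [lst, G]
      rw [h1, h2, measure_univ, measure_univ]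
    | succ n ih =>
      have h1 : {ω : Ω | ∀ i < n + 1, e i ω = s i} =
          {ω | (∀ i < n, e i ω = s i) ∧ e n ω = s n} := by
        ext ω
        simp only [Set.mem_ofPred_eq]
        constructor
        · intro h
          exact ⟨fun i hi => h i (Nat.lt_succ_of_lt hi), h n (Nat.lt_succ_self n)⟩
        · rintro ⟨h2, h3⟩ i hi
          rcases Nat.lt_succ_iff_lt_or_eq.1 hi with h4 | h4
          · exact h2 i h4
          · subst h4; exact h3
      rw [h1, hstep n s (s n), ih]
      by_cases hz : (PE d) {E | G (τ E) (lst s n)} = 0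
      · rw [hz, zero_mul]
        symm
        refine le_antisymm ?_ zero_le
        rw [← hz]
        exact measure_mono fun E hE => hE.1
      · obtain ⟨E, hE⟩ : {E | G (τ E) (lst s n)}.Nonempty := by
          rw [Set.nonempty_iff_ne_empty]
          intro h
          rw [h, measure_empty] at hz
          exact hz rfl
        have h0 : 0 < n → (0 : V d) = (s 0).1 ∨ (0 : V d) = (s 0).1 + ev (s 0).2 :=
          fun hn => G_zero hn hE
        have hc := cnd_iff h0
        by_cases hb : s n ∈ bd (lst s n)
        · have hb' : Cnd n s (s n) := (hc _).2 hb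
          unfold Cnd at hb'
          rw [if_pos hb']
          have hsum : (∑' g : (Fin d → ℤ) × Fin d,
                  if ((∀ i < n, g ≠ s i) ∧
                      (n = 0 → ((0 : Fin d → ℤ) = g.1 ∨ (0 : Fin d → ℤ) = g.1 + Pi.single g.2 1)) ∧
                      (0 < n → ∃ i < n, ∃ p : Fin d → ℤ,
                        (p = g.1 ∨ p = g.1 + Pi.single g.2 1) ∧
                        (p = (s i).1 ∨ p = (s i).1 + Pi.single (s i).2 1)))
                  then
                    (Real.sqrt (∑ j : Fin d,
                      ((g.1 j : ℝ) + (if j = g.2 then (1 / 2 : ℝ) else 0)) ^ 2)) ^ α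
                  else 0) = ∑ g ∈ bd (lst s n), w g := by
            rw [tsum_eq_sum (s := bd (lst s n))]
            · apply Finset.sum_congr rfl
              intro g hg
              have hg' : Cnd n s g := (hc g).2 hg
              exact if_pos hg'
            · intro g hg
              have hg' : ¬ Cnd n s g := fun h => hg ((hc g).1 h)
              exact if_neg hg'
          rw [hsum]
          exact (law_step w hwpos (lst s n) hb).symm
        · have hb' : ¬ Cnd n s (s n) := fun h => hb ((hc _).1 h)
          unfold Cnd at hb'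
          rw [if_neg hb', ENNReal.ofReal_zero, mul_zero]
          symm
          have : {E : Edge d → ℝ | G (τ E) (lst s (n + 1))} = ∅ := by
            ext E
            simp only [Set.mem_ofPred_eq, Set.mem_empty_iff_false, iff_false]
            intro h
            exact hb h.2.1
          rw [this, measure_empty]
  -- prefixes
  set pre : Ω → ℕ → List (Edge d) := fun ω n => lst (fun i => e i ω) n with hpre
  have hpm : ∀ n σ, MeasurableSet {ω | pre ω n = σ} := by
    intro n
    induction n with
    | zero =>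
      intro σ
      have : {ω | pre ω 0 = σ} = {_ω | [] = σ} := rfl
      rw [this]
      exact MeasurableSet.const _
    | succ n ih =>
      intro σ
      cases σ with
      | nil =>
        have : {ω | pre ω (n + 1) = []} = ∅ := by
          ext ω; simp [hpre, lst]
        rw [this]; exact MeasurableSet.empty
      | cons a σ =>
        have : {ω | pre ω (n + 1) = a :: σ} = {ω | e n ω = a} ∩ {ω | pre ω n = σ} := by
          ext ω; simp [hpre, lst]
        rw [this]
        exact (hem n a).inter (ih σ)
  have hGm : ∀ σ, MeasurableSet {E | G (τ E) σ} := fun σ => measurableSet_G w σ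
  -- marginal lemma
  have hmarg : ∀ (n : ℕ) (H : Set (List (Edge d))),
      P {ω | pre ω n ∈ H} = (PE d) {E | ∃ σ ∈ H, σ.length = n ∧ G (τ E) σ} := by
    intro n H
    have h1 : {ω | pre ω n ∈ H} = ⋃ σ : {σ : List (Edge d) // σ ∈ H ∧ σ.length = n},
        {ω | pre ω n = σ.1} := by
      ext ω
      simp only [Set.mem_ofPred_eq, Set.mem_iUnion]
      constructor
      · intro h
        exact ⟨⟨pre ω n, h, length_lst _ n⟩, rfl⟩
      · rintro ⟨σ, hσ⟩
        rw [hσ]; exact σ.2.1
    have h2 : {E | ∃ σ ∈ H, σ.length = n ∧ G (τ E) σ} =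
        ⋃ σ : {σ : List (Edge d) // σ ∈ H ∧ σ.length = n}, {E | G (τ E) σ.1} := by
      ext E
      simp only [Set.mem_ofPred_eq, Set.mem_iUnion]
      constructor
      · rintro ⟨σ, h3, h4, h5⟩
        exact ⟨⟨σ, h3, h4⟩, h5⟩
      · rintro ⟨σ, hσ⟩
        exact ⟨σ.1, σ.2.1, σ.2.2, hσ⟩
    rw [h1, h2, measure_iUnion, measure_iUnion]
    · apply tsum_congr
      rintro ⟨σ, hσ, hl⟩
      obtain ⟨s, hs⟩ := exists_lst i0 σ
      rw [hl] at hs
      have h3 : {ω | pre ω n = σ} = {ω | ∀ i < n, e i ω = s i} := by
        ext ω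
        simp only [Set.mem_ofPred_eq, hpre]
        rw [← hs, lst_eq_iff]
      show P {ω | pre ω n = σ} = (PE d) {E | G (τ E) σ}
      rw [h3, hlaw n s, hs]
    · rintro ⟨σ, hσ, hl⟩ ⟨σ', hσ', hl'⟩ hne
      rw [Function.onFun, Set.disjoint_left]
      intro E h3 h4
      exact hne (Subtype.ext (G_unique (hl.trans hl'.symm) h3 h4))
    · exact fun σ => hGm σ.1
    · rintro ⟨σ, hσ, hl⟩ ⟨σ', hσ', hl'⟩ hne
      rw [Function.onFun, Set.disjoint_left]
      intro ω h3 h4
      exact hne (Subtype.ext (h3.symm.trans h4))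
    · exact fun σ => hpm n σ.1
  have hEm : ∀ n (H : Set (List (Edge d))),
      MeasurableSet {E | ∃ σ ∈ H, σ.length = n ∧ G (τ E) σ} := by
    intro n H
    have h1 : {E | ∃ σ ∈ H, σ.length = n ∧ G (τ E) σ} =
        ⋃ σ : List (Edge d), ⋃ (_ : σ ∈ H), ⋃ (_ : σ.length = n), {E | G (τ E) σ} := by
      ext E
      simp only [Set.mem_ofPred_eq, Set.mem_iUnion, exists_prop]
    rw [h1]
    exact MeasurableSet.iUnion fun σ => MeasurableSet.iUnion fun _ =>
      MeasurableSet.iUnion fun _ => hGm σ
  have hall : ∀ᵐ E ∂(PE d), ∀ n, ∃ σ : List (Edge d), σ.length = n ∧ G (τ E) σ := by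
    rw [ae_all_iff]
    intro n
    have h1 := hmarg n Set.univ
    have h2 : {ω : Ω | pre ω n ∈ (Set.univ : Set (List (Edge d)))} = Set.univ := by ext; simp
    rw [h2, measure_univ] at h1
    have h3 := (mem_ae_iff_prob_eq_one (hEm n Set.univ)).2 h1.symm
    filter_upwards [h3] with E hE
    obtain ⟨σ, _, h4, h5⟩ := hE
    exact ⟨σ, h4, h5⟩
  exact ⟨hlaw, hall⟩

/-- the exploration sequence -/
noncomputable def sq (i0 : Fin d) (α : ℝ) (E : Edge d → ℝ) (n : ℕ) : Edge d :=
  if h : ∃ (f : Edge d) (σ : List (Edge d)), σ.length = n ∧ G (tau α E) (f :: σ) then h.choose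
  else (0, i0)

theorem sq_eq (i0 : Fin d) (α : ℝ) {E : Edge d → ℝ} {f : Edge d} {σ : List (Edge d)}
    (h : G (tau α E) (f :: σ)) : sq i0 α E σ.length = f := by
  have hex : ∃ (g : Edge d) (σ' : List (Edge d)), σ'.length = σ.length ∧ G (tau α E) (g :: σ') :=
    ⟨f, σ, rfl, h⟩
  rw [sq, dif_pos hex]
  obtain ⟨σ', h1, h2⟩ := hex.choose_spec
  have h3 := G_unique (by simp [h1]) h2 h
  exact (List.cons.inj h3).1

theorem sq_good (i0 : Fin d) (α : ℝ) {E : Edge d → ℝ}
    (h : ∀ n, ∃ σ : List (Edge d), σ.length = n ∧ G (tau α E) σ) (n : ℕ) :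
    G (tau α E) (lst (sq i0 α E) n) := by
  induction n with
  | zero => exact trivial
  | succ n ih =>
    obtain ⟨τ', h1, h2⟩ := h (n + 1)
    cases τ' with
    | nil => simp at h1
    | cons f σ =>
      have h3 : σ.length = n := by simpa using h1
      have h4 : σ = lst (sq i0 α E) n := G_unique (by rw [h3, length_lst]) h2.1 ih
      have h5 : sq i0 α E n = f := by
        rw [← h3]
        exact sq_eq i0 α h2
      show G (tau α E) (sq i0 α E n :: lst (sq i0 α E) n)
      rw [h5, ← h4]
      exact h2

theorem measurableSet_G' (α : ℝ) (σ : List (Edge d)) :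
    MeasurableSet {E : Edge d → ℝ | G (tau α E) σ} :=
  measurableSet_G (fun f => mid f ^ α) σ

theorem measurable_sq (i0 : Fin d) (α : ℝ) : Measurable (sq (d := d) i0 α) := by
  refine measurable_pi_lambda _ fun n => measurable_to_countable' fun f => ?_
  have hA : MeasurableSet {E : Edge d → ℝ | ∃ σ : List (Edge d), σ.length = n ∧
      G (tau α E) (f :: σ)} := by
    have : {E : Edge d → ℝ | ∃ σ : List (Edge d), σ.length = n ∧ G (tau α E) (f :: σ)} =
        ⋃ σ : List (Edge d), ⋃ (_ : σ.length = n), {E | G (tau α E) (f :: σ)} := by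
      ext E
      simp only [Set.mem_ofPred_eq, Set.mem_iUnion, exists_prop]
    rw [this]
    exact MeasurableSet.iUnion fun σ => MeasurableSet.iUnion fun _ => measurableSet_G' α _
  have hB : MeasurableSet {E : Edge d → ℝ | ∃ (g : Edge d) (σ : List (Edge d)), σ.length = n ∧
      G (tau α E) (g :: σ)} := by
    have : {E : Edge d → ℝ | ∃ (g : Edge d) (σ : List (Edge d)), σ.length = n ∧
        G (tau α E) (g :: σ)} =
        ⋃ g : Edge d, ⋃ σ : List (Edge d), ⋃ (_ : σ.length = n), {E | G (tau α E) (g :: σ)} := by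
      ext E
      simp only [Set.mem_ofPred_eq, Set.mem_iUnion, exists_prop]
    rw [this]
    exact MeasurableSet.iUnion fun g => MeasurableSet.iUnion fun σ => MeasurableSet.iUnion fun _ =>
      measurableSet_G' α _
  by_cases hf : f = (0, i0)
  · have : (fun E => sq (d := d) i0 α E n) ⁻¹' {f} =
        {E : Edge d → ℝ | ∃ σ : List (Edge d), σ.length = n ∧ G (tau α E) (f :: σ)} ∪
        {E : Edge d → ℝ | ∃ (g : Edge d) (σ : List (Edge d)), σ.length = n ∧
          G (tau α E) (g :: σ)}ᶜ := by
      ext E
      simp only [Set.mem_preimage, Set.mem_singleton_iff, Set.mem_union, Set.mem_compl_iff,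
        Set.mem_ofPred_eq]
      constructor
      · intro h
        by_cases hex : ∃ (g : Edge d) (σ : List (Edge d)), σ.length = n ∧ G (tau α E) (g :: σ)
        · left
          obtain ⟨g, σ, h1, h2⟩ := hex
          have h3 := sq_eq i0 α h2
          rw [h1, h] at h3
          exact ⟨σ, h1, h3 ▸ h2⟩
        · exact Or.inr hex
      · rintro (⟨σ, h1, h2⟩ | h)
        · rw [← h1]
          exact sq_eq i0 α h2
        · rw [sq, dif_neg h, hf]
    rw [this]
    exact hA.union hB.compl
  · have : (fun E => sq (d := d) i0 α E n) ⁻¹' {f} =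
        {E : Edge d → ℝ | ∃ σ : List (Edge d), σ.length = n ∧ G (tau α E) (f :: σ)} := by
      ext E
      simp only [Set.mem_preimage, Set.mem_singleton_iff, Set.mem_ofPred_eq]
      constructor
      · intro h
        by_cases hex : ∃ (g : Edge d) (σ : List (Edge d)), σ.length = n ∧ G (tau α E) (g :: σ)
        · obtain ⟨g, σ, h1, h2⟩ := hex
          have h3 := sq_eq i0 α h2
          rw [h1, h] at h3
          exact ⟨σ, h1, h3 ▸ h2⟩
        · rw [sq, dif_neg hex] at h
          exact absurd h.symm hf
      · rintro ⟨σ, h1, h2⟩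
        rw [← h1]
        exact sq_eq i0 α h2
    rw [this]
    exact hA

/-- two laws of sequences with the same beginnings are equal -/
theorem law_unique (i0 : Fin d) {μ ν : Measure (ℕ → Edge d)} [IsProbabilityMeasure μ]
    [IsProbabilityMeasure ν]
    (h : ∀ (n : ℕ) (s : ℕ → Edge d), μ {t | ∀ i < n, t i = s i} = ν {t | ∀ i < n, t i = s i}) :
    μ = ν := by
  have hmap : ∀ n : ℕ, μ.map (Finset.range n).restrict = ν.map (Finset.range n).restrict := by
    intro n
    refine Measure.ext_of_singleton fun g => ?_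
    have hm : MeasurableSet {g} := measurableSet_singleton g
    rw [Measure.map_apply (Finset.measurable_restrict _) hm,
      Measure.map_apply (Finset.measurable_restrict _) hm]
    have hset : ((Finset.range n).restrict (π := fun _ : ℕ => Edge d)) ⁻¹' {g} =
        {t : ℕ → Edge d | ∀ i < n, t i = (fun k => if hk : k ∈ Finset.range n then g ⟨k, hk⟩
          else (0, i0)) i} := by
      ext t
      simp only [Set.mem_preimage, Set.mem_singleton_iff, Set.mem_ofPred_eq]
      constructor
      · intro h i hi
        have hi' := Finset.mem_range.2 hi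
        rw [dif_pos hi', ← h]
        rfl
      · intro h
        funext i
        have h1 := h i.1 (Finset.mem_range.1 i.2)
        rw [dif_pos i.2] at h1
        exact h1
    rw [hset]
    exact h n _
  have hproj : IsProjectiveLimit μ (fun I : Finset ℕ => ν.map I.restrict) := by
    intro I
    obtain ⟨n, hn⟩ := I.exists_nat_subset_range
    have h1 : ∀ ρ : Measure (ℕ → Edge d), ρ.map I.restrict =
        (ρ.map (Finset.range n).restrict).map (Finset.restrict₂ (π := fun _ : ℕ => Edge d) hn) := by
      intro ρ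
      rw [Measure.map_map (Finset.measurable_restrict₂ hn) (Finset.measurable_restrict _)]
      rfl
    show μ.map I.restrict = ν.map I.restrict
    rw [h1 μ, hmap n, ← h1 ν]
  exact hproj.unique fun I => rfl

/-- transfer of almost sure properties -/
theorem transfer_ae (i0 : Fin d) (α : ℝ) :
    ∀ (Ω : Type) [MeasurableSpace Ω] (P : Measure Ω), IsProbabilityMeasure P →
    ∀ e : ℕ → Ω → (Fin d → ℤ) × Fin d,
      (∀ (n : ℕ) (f : (Fin d → ℤ) × Fin d), MeasurableSet {ω | e n ω = f}) →
      (∀ (n : ℕ) (s : ℕ → (Fin d → ℤ) × Fin d) (f : (Fin d → ℤ) × Fin d),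
        P {ω | (∀ i < n, e i ω = s i) ∧ e n ω = f}
          = P {ω | ∀ i < n, e i ω = s i} *
            ENNReal.ofReal
              (if ((∀ i < n, f ≠ s i) ∧
                    (n = 0 → ((0 : Fin d → ℤ) = f.1 ∨ (0 : Fin d → ℤ) = f.1 + Pi.single f.2 1)) ∧
                    (0 < n → ∃ i < n, ∃ p : Fin d → ℤ,
                      (p = f.1 ∨ p = f.1 + Pi.single f.2 1) ∧
                      (p = (s i).1 ∨ p = (s i).1 + Pi.single (s i).2 1)))
               then
                (Real.sqrt (∑ j : Fin d,
                    ((f.1 j : ℝ) + (if j = f.2 then (1 / 2 : ℝ) else 0)) ^ 2)) ^ α /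
                (∑' g : (Fin d → ℤ) × Fin d,
                  if ((∀ i < n, g ≠ s i) ∧
                      (n = 0 → ((0 : Fin d → ℤ) = g.1 ∨ (0 : Fin d → ℤ) = g.1 + Pi.single g.2 1)) ∧
                      (0 < n → ∃ i < n, ∃ p : Fin d → ℤ,
                        (p = g.1 ∨ p = g.1 + Pi.single g.2 1) ∧
                        (p = (s i).1 ∨ p = (s i).1 + Pi.single (s i).2 1)))
                  then
                    (Real.sqrt (∑ j : Fin d,
                      ((g.1 j : ℝ) + (if j = g.2 then (1 / 2 : ℝ) else 0)) ^ 2)) ^ α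
                  else 0)
               else 0)) →
      ∀ Q : Set (ℕ → Edge d), MeasurableSet Q →
      (∀ᵐ E ∂(PE d), ∀ s : ℕ → Edge d, (∀ n, G (tau α E) (lst s n)) → s ∈ Q) →
      ∀ᵐ ω ∂P, (fun n => e n ω) ∈ Q := by
  intro Ω _ P hP e hem hstep Q hQ h
  obtain ⟨hlaw, hall⟩ := law_prefix i0 α Ω P hP e hem hstep
  have hme : Measurable fun (ω : Ω) (n : ℕ) => e n ω :=
    measurable_pi_lambda _ fun n => measurable_to_countable' fun f => hem n f
  have hms := measurable_sq (d := d) i0 α
  have : IsProbabilityMeasure (P.map fun (ω : Ω) (n : ℕ) => e n ω) :=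
    Measure.isProbabilityMeasure_map hme.aemeasurable
  have : IsProbabilityMeasure ((PE d).map (sq i0 α)) :=
    Measure.isProbabilityMeasure_map hms.aemeasurable
  have hcyl : ∀ (n : ℕ) (s : ℕ → Edge d), MeasurableSet {t : ℕ → Edge d | ∀ i < n, t i = s i} := by
    intro n s
    have : {t : ℕ → Edge d | ∀ i < n, t i = s i} = ⋂ i : ℕ, ⋂ (_ : i < n), {t | t i = s i} := by
      ext t
      simp only [Set.mem_ofPred_eq, Set.mem_iInter]
    rw [this]
    exact MeasurableSet.iInter fun i => MeasurableSet.iInter fun _ =>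
      measurableSet_eq_fun (measurable_pi_apply i) measurable_const
  have heq : P.map (fun (ω : Ω) (n : ℕ) => e n ω) = (PE d).map (sq i0 α) := by
    refine law_unique i0 fun n s => ?_
    rw [Measure.map_apply hme (hcyl n s), Measure.map_apply hms (hcyl n s)]
    have h1 : (fun (ω : Ω) (n : ℕ) => e n ω) ⁻¹' {t : ℕ → Edge d | ∀ i < n, t i = s i} =
        {ω | ∀ i < n, e i ω = s i} := rfl
    rw [h1, hlaw n s]
    refine measure_congr ?_
    filter_upwards [hall] with E hE
    refine propext ?_
    have h2 := sq_good i0 α hE n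
    constructor
    · intro (h3 : G (tau α E) (lst s n))
      have h4 := G_unique (by rw [length_lst, length_lst]) h2 h3
      exact (lst_eq_iff _ _ n).1 h4
    · intro (h3 : ∀ i < n, sq i0 α E i = s i)
      have h4 : lst (sq i0 α E) n = lst s n := (lst_eq_iff _ _ n).2 h3
      show G (tau α E) (lst s n)
      rw [← h4]
      exact h2
  have h1 : (P.map (fun (ω : Ω) (n : ℕ) => e n ω)) Qᶜ = 0 := by
    rw [heq, Measure.map_apply hms hQ.compl]
    have h2 : ∀ᵐ E ∂(PE d), sq i0 α E ∈ Q := by
      filter_upwards [hall, h] with E hE1 hE2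
      exact hE2 _ (sq_good i0 α hE1)
    exact h2
  rw [Measure.map_apply hme hQ.compl] at h1
  exact h1

end OneE
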