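import Pool.Agent.OneE.Defs

/-!
The event that the infection tree has one end is measurable.
-/

set_option autoImplicit false

namespace OneE

open MeasureTheory ConeD ConeD.TRANSAux

variable {d : ℕ}

/-- reflexive transitive closure of a measurable family of relations on a countable type -/
theorem measurableSet_rtg {X W : Type*} [MeasurableSpace X] [Countable W] (r : X → W → W → Prop)
    (hr : ∀ x y, MeasurableSet {s | r s x y}) (z v : W) :
    MeasurableSet {s | Relation.ReflTransGen (r s) z v} := by
  let A : ℕ → W → Set X := fun n =>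
    Nat.rec (fun v => {_s : X | z = v}) (fun _ A v => ⋃ u, A u ∩ {s | r s u v}) n
  have hA0 : ∀ v, A 0 v = {_s : X | z = v} := fun v => rfl
  have hA1 : ∀ n v, A (n + 1) v = ⋃ u, A n u ∩ {s | r s u v} := fun n v => rfl
  have hA : ∀ n v, MeasurableSet (A n v) := by
    intro n
    induction n with
    | zero =>
      intro v
      rw [hA0]
      exact MeasurableSet.const _
    | succ n ih =>
      intro v
      rw [hA1]
      exact MeasurableSet.iUnion fun u => (ih u).inter (hr u v)
  have hset : {s | Relation.ReflTransGen (r s) z v} = ⋃ n, A n v := by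
    ext s
    rw [Set.mem_iUnion]
    constructor
    · intro (h : Relation.ReflTransGen (r s) z v)
      induction h with
      | refl => exact ⟨0, rfl⟩
      | @tail u w _ h2 ih =>
        obtain ⟨n, hn⟩ := ih
        refine ⟨n + 1, ?_⟩
        rw [hA1]
        exact Set.mem_iUnion.2 ⟨u, hn, h2⟩
    · rintro ⟨n, hn⟩
      show Relation.ReflTransGen (r s) z v
      induction n generalizing v with
      | zero =>
        have : z = v := hn
        rw [this]
      | succ n ih =>
        rw [hA1] at hn
        obtain ⟨u, hu1, hu2⟩ := Set.mem_iUnion.1 hn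
        exact (ih u hu1).tail hu2
  rw [hset]
  exact MeasurableSet.iUnion fun n => hA n v

theorem measurableSet_ends (x : V d) (n : ℕ) : MeasurableSet {s : ℕ → Edge d | x ∈ ends (s n)} := by
  have h : MeasurableSet ((fun s : ℕ → Edge d => s n) ⁻¹' {f : Edge d | x ∈ ends f}) :=
    (measurable_pi_apply n) (Set.to_countable {f : Edge d | x ∈ ends f}).measurableSet
  exact h

theorem measurableSet_vs (x : V d) (n : ℕ) :
    MeasurableSet {s : ℕ → Edge d | x ∈ vs (lst s n)} := by
  induction n with
  | zero =>
    have : {s : ℕ → Edge d | x ∈ vs (lst s 0)} = {_s | x ∈ ({0} : Finset (V d))} := rfl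
    rw [this]
    exact MeasurableSet.const _
  | succ n ih =>
    have : {s : ℕ → Edge d | x ∈ vs (lst s (n + 1))} =
        {s | x ∈ vs (lst s n)} ∪ {s | x ∈ ends (s n)} := by
      ext s
      exact Finset.mem_union
    rw [this]
    exact ih.union (measurableSet_ends x n)

theorem measurableSet_infects (x y : V d) : MeasurableSet {s : ℕ → Edge d | Infects s x y} := by
  have : {s : ℕ → Edge d | Infects s x y} = ⋃ n, (({s | x ∈ ends (s n)} ∩ {s | y ∈ ends (s n)}) ∩
      ({s | x ∈ vs (lst s n)} ∩ {s | y ∈ vs (lst s n)}ᶜ)) := by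
    ext s
    simp only [Infects, Set.mem_ofPred_eq, Set.mem_iUnion, Set.mem_inter_iff, Set.mem_compl_iff,
      and_assoc]
  rw [this]
  exact MeasurableSet.iUnion fun n => ((measurableSet_ends x n).inter (measurableSet_ends y n)).inter
    ((measurableSet_vs x n).inter (measurableSet_vs y n).compl)

theorem measurableSet_oneEnd : MeasurableSet {s : ℕ → Edge d | OneEnd s} := by
  have hset : {s : ℕ → Edge d | OneEnd s} = ⋂ F : Finset (V d), ⋃ z : V d, ⋃ (_ : z ∉ F),
      {s | (Reached s \ {v | Relation.ReflTransGen (fun x y => Infects s x y ∧ y ∉ F) z v}).Infinite}ᶜ := by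
    ext s
    simp only [OneEnd, Set.mem_ofPred_eq, Set.mem_iInter, Set.mem_iUnion, Set.mem_compl_iff,
      Set.not_infinite, exists_prop]
  rw [hset]
  refine MeasurableSet.iInter fun F => MeasurableSet.iUnion fun z => MeasurableSet.iUnion fun _ => ?_
  refine (UNIQAux.meas_inf _ fun v => ?_).compl
  have h1 : {s : ℕ → Edge d | v ∈ Reached s \
      {v | Relation.ReflTransGen (fun x y => Infects s x y ∧ y ∉ F) z v}} =
      (⋃ n, {s | v ∈ vs (lst s n)}) ∩
        {s | Relation.ReflTransGen (fun x y => Infects s x y ∧ y ∉ F) z v}ᶜ := by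
    ext s
    simp only [Reached, Set.mem_sdiff, Set.mem_ofPred_eq, Set.mem_iUnion, Set.mem_inter_iff,
      Set.mem_compl_iff]
  rw [h1]
  refine (MeasurableSet.iUnion fun n => measurableSet_vs v n).inter (MeasurableSet.compl ?_)
  refine measurableSet_rtg (fun (s : ℕ → Edge d) x y => Infects s x y ∧ y ∉ F) (fun x y => ?_) z v
  exact (measurableSet_infects x y).inter (MeasurableSet.const _)

end OneE
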